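import Pool.Agent.Helper20.FS.St3
import Pool.Agent.Helper20.FA.Semi

/-!
# Project SM, module UB
-/

set_option autoImplicit false

open Topology Filter

namespace Pool.Agent.Helper70.SL

open Pool.Agent.Helper20.FA Pool.Agent.Helper20.FR Pool.Agent.Helper20.FS

attribute [local instance] IsFrechet.tag IsFrechet.csm IsFrechet.lcs IsFrechet.metr

private theorem cofinal {A : Type} [AddCommGroup A] [Module ℂ A] [TopologicalSpace A]
    [IsFrechet A] : ∃ π : ℕ → Seminorm ℂ A, (∀ i, Continuous (π i)) ∧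
      ∀ q : Seminorm ℂ A, Continuous q → ∃ i, ∀ x, q x ≤ π i x := by
  obtain ⟨V, hV⟩ := (𝓝 (0 : A)).exists_antitone_basis
  have h1 : ∀ n, ∃ v : Seminorm ℂ A, Continuous v ∧ ∀ x, v x < 1 → x ∈ V n := fun n =>
    exists_seminorm (hV.mem n)
  choose π hπ hπV using h1
  refine ⟨π, hπ, fun q hq => ?_⟩
  have h2 : {x : A | q x < 1} ∈ 𝓝 (0 : A) := by
    have h3 : IsOpen {x : A | q x < 1} := isOpen_lt hq continuous_const
    refine h3.mem_nhds ?_
    show q 0 < 1
    rw [map_zero]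
    exact one_pos
  obtain ⟨i, -, hi⟩ := hV.toHasBasis.mem_iff.1 h2
  refine ⟨i, fun x => ?_⟩
  by_contra hcon
  push Not at hcon
  obtain ⟨t, ht1, ht2⟩ := exists_between hcon
  have ht0 : 0 < t := lt_of_le_of_lt (apply_nonneg _ _) ht1
  have hsc : ∀ w : Seminorm ℂ A, w ((((t : ℝ) : ℂ))⁻¹ • x) = t⁻¹ * w x := by
    intro w
    rw [map_smul_eq_mul, norm_inv, Complex.norm_real, Real.norm_of_nonneg ht0.le]
  have h4 : π i ((((t : ℝ) : ℂ))⁻¹ • x) < 1 := by
    rw [hsc, inv_mul_lt_iff₀ ht0, mul_one]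
    exact ht1
  have h5 : q ((((t : ℝ) : ℂ))⁻¹ • x) < 1 := hi (hπV i _ h4)
  rw [hsc, inv_mul_lt_iff₀ ht0, mul_one] at h5
  linarith

section

variable {A : Type} [CommRing A] [Algebra ℂ A]

/-- Cauchy sequences. -/
private def Cau (r : Seminorm ℂ A) (α : ℕ → A) : Prop :=
  ∀ ε : ℝ, 0 < ε → ∃ N, ∀ k ≥ N, ∀ m ≥ N, r (α k - α m) ≤ ε

private theorem Cau.bdd {r : Seminorm ℂ A} {α : ℕ → A} (h : Cau r α) :
    ∃ B : ℝ, 0 < B ∧ ∃ N, ∀ k ≥ N, r (α k) ≤ B := by
  obtain ⟨N, hN⟩ := h 1 one_pos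
  refine ⟨r (α N) + 1, by have := apply_nonneg r (α N); linarith, N, fun k hk => ?_⟩
  have h1 := hN k hk N le_rfl
  have h2 : r (α k) ≤ r (α N) + r (α k - α N) := by
    calc r (α k) = r (α N + (α k - α N)) := by rw [add_sub_cancel]
      _ ≤ _ := map_add_le_add r _ _
  linarith

/-- The ring of Cauchy sequences. -/
private def CS (r : Seminorm ℂ A) (hm : ∀ a b, r (a * b) ≤ r a * r b) : Subalgebra ℂ (ℕ → A) where
  carrier := {α | Cau r α}
  mul_mem' := by
    intro α β hα hβ ε hε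
    obtain ⟨B, hB0, N1, hB⟩ := Cau.bdd hα
    obtain ⟨D, hD0, N2, hD⟩ := Cau.bdd hβ
    obtain ⟨N3, h3⟩ := hα (ε / (2 * D)) (by positivity)
    obtain ⟨N4, h4⟩ := hβ (ε / (2 * B)) (by positivity)
    refine ⟨N1 + N2 + N3 + N4, fun k hk m hm' => ?_⟩
    have e : (α * β) k - (α * β) m = α k * (β k - β m) + (α k - α m) * β m := by
      simp only [Pi.mul_apply]
      ring
    rw [e]
    have e1 := hB k (by omega)
    have e2 := hD m (by omega)
    have e3 := h3 k (by omega) m (by omega)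
    have e4 := h4 k (by omega) m (by omega)
    have n1 := apply_nonneg r (α k)
    have n2 := apply_nonneg r (β m)
    have n3 := apply_nonneg r (α k - α m)
    have n4 := apply_nonneg r (β k - β m)
    calc r (α k * (β k - β m) + (α k - α m) * β m)
        ≤ r (α k * (β k - β m)) + r ((α k - α m) * β m) := map_add_le_add r _ _
      _ ≤ r (α k) * r (β k - β m) + r (α k - α m) * r (β m) := add_le_add (hm _ _) (hm _ _)
      _ ≤ B * (ε / (2 * B)) + (ε / (2 * D)) * D :=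
          add_le_add (mul_le_mul e1 e4 n4 hB0.le) (mul_le_mul e3 e2 n2 (by positivity))
      _ = ε := by
          field_simp
          ring
  add_mem' := by
    intro α β hα hβ ε hε
    obtain ⟨N1, h1⟩ := hα (ε / 2) (by positivity)
    obtain ⟨N2, h2⟩ := hβ (ε / 2) (by positivity)
    refine ⟨N1 + N2, fun k hk m hm' => ?_⟩
    have e : (α + β) k - (α + β) m = (α k - α m) + (β k - β m) := by
      simp only [Pi.add_apply]
      ring
    rw [e]
    calc r ((α k - α m) + (β k - β m)) ≤ r (α k - α m) + r (β k - β m) := map_add_le_add r _ _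
      _ ≤ ε / 2 + ε / 2 :=
          add_le_add (h1 k (by omega) m (by omega)) (h2 k (by omega) m (by omega))
      _ = ε := by ring
  algebraMap_mem' := by
    intro z ε hε
    refine ⟨0, fun k _ m _ => ?_⟩
    have e : (algebraMap ℂ (ℕ → A) z) k - (algebraMap ℂ (ℕ → A) z) m = 0 := sub_self _
    rw [e, map_zero]
    exact hε.le

private theorem Cau.lim {p r : Seminorm ℂ A} (hpr : ∀ x, p x ≤ r x) {α : ℕ → A} (h : Cau r α) :
    ∃ L : ℝ, Tendsto (fun k => p (α k)) atTop (𝓝 L) := by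
  apply cauchySeq_tendsto_of_complete
  rw [Metric.cauchySeq_iff]
  intro ε hε
  obtain ⟨N, hN⟩ := h (ε / 2) (by positivity)
  refine ⟨N, fun k hk m hm => ?_⟩
  rw [Real.dist_eq]
  have h1 := abs_sub_map_le_sub p (α k) (α m)
  have h2 := hpr (α k - α m)
  have h3 := hN k hk m hm
  linarith

/-- The limit of the seminorms. -/
private noncomputable def PL (p r : Seminorm ℂ A) (hm : ∀ a b, r (a * b) ≤ r a * r b)
    (hpr : ∀ x, p x ≤ r x) : Seminorm ℂ (CS r hm) :=
  Seminorm.of (fun α => Classical.choose (Cau.lim hpr α.2)) (by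
    intro α β
    refine le_of_tendsto_of_tendsto' (Classical.choose_spec (Cau.lim hpr (α + β).2))
      ((Classical.choose_spec (Cau.lim hpr α.2)).add (Classical.choose_spec (Cau.lim hpr β.2)))
      fun k => ?_
    exact map_add_le_add p (α.1 k) (β.1 k)) (by
    intro z α
    refine tendsto_nhds_unique (Classical.choose_spec (Cau.lim hpr (z • α).2)) ?_
    refine ((Classical.choose_spec (Cau.lim hpr α.2)).const_mul ‖z‖).congr fun k => ?_
    exact (map_smul_eq_mul p z (α.1 k)).symm)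

private theorem PL_tendsto (p r : Seminorm ℂ A) (hm : ∀ a b, r (a * b) ≤ r a * r b)
    (hpr : ∀ x, p x ≤ r x) (α : CS r hm) :
    Tendsto (fun k => p (α.1 k)) atTop (𝓝 (PL p r hm hpr α)) :=
  Classical.choose_spec (Cau.lim hpr α.2)

private theorem PL_mul (p r : Seminorm ℂ A) (hm : ∀ a b, r (a * b) ≤ r a * r b)
    (hpr : ∀ x, p x ≤ r x) (hp : ∀ a b, p (a * b) ≤ p a * p b) (α β : CS r hm) :
    PL p r hm hpr (α * β) ≤ PL p r hm hpr α * PL p r hm hpr β :=
  le_of_tendsto_of_tendsto' (PL_tendsto p r hm hpr (α * β))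
    ((PL_tendsto p r hm hpr α).mul (PL_tendsto p r hm hpr β)) fun k => hp (α.1 k) (β.1 k)

/-- Constant sequences. -/
private def cst (r : Seminorm ℂ A) (hm : ∀ a b, r (a * b) ≤ r a * r b) : A →ₐ[ℂ] CS r hm where
  toFun a := ⟨fun _ => a, fun ε hε => ⟨0, fun k _ m _ => by
    show r (a - a) ≤ ε
    rw [sub_self, map_zero]
    exact hε.le⟩⟩
  map_one' := rfl
  map_mul' _ _ := rfl
  map_zero' := rfl
  map_add' _ _ := rfl
  commutes' _ := rfl

/-- The ideal. -/
private def Id (q r : Seminorm ℂ A) (hm : ∀ a b, r (a * b) ≤ r a * r b) : Ideal (CS r hm) where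
  carrier := {α | ∃ C : ℝ, ∀ b, ∀ ε : ℝ, 0 < ε → ∀ᶠ k in atTop, r (α.1 k * b) ≤ C * q b + ε}
  zero_mem' := ⟨0, fun b ε hε => Eventually.of_forall fun k => by
    show r (0 * b) ≤ 0 * q b + ε
    rw [zero_mul, map_zero, zero_mul, zero_add]
    exact hε.le⟩
  add_mem' := by
    rintro α β ⟨C, hC⟩ ⟨D, hD⟩
    refine ⟨C + D, fun b ε hε => ?_⟩
    filter_upwards [hC b (ε / 2) (by positivity), hD b (ε / 2) (by positivity)] with k h1 h2
    have e : (α + β).1 k * b = α.1 k * b + β.1 k * b := add_mul _ _ _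
    rw [e]
    calc r (α.1 k * b + β.1 k * b) ≤ r (α.1 k * b) + r (β.1 k * b) := map_add_le_add r _ _
      _ ≤ (C * q b + ε / 2) + (D * q b + ε / 2) := add_le_add h1 h2
      _ = (C + D) * q b + ε := by ring
  smul_mem' := by
    rintro γ α ⟨C, hC⟩
    obtain ⟨B, hB0, N, hB⟩ := Cau.bdd γ.2
    refine ⟨B * C, fun b ε hε => ?_⟩
    filter_upwards [hC b (ε / B) (by positivity), eventually_ge_atTop N] with k h1 h2
    have e : (γ • α).1 k * b = γ.1 k * (α.1 k * b) := mul_assoc _ _ _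
    rw [e]
    calc r (γ.1 k * (α.1 k * b)) ≤ r (γ.1 k) * r (α.1 k * b) := hm _ _
      _ ≤ B * (C * q b + ε / B) := mul_le_mul (hB k h2) h1 (apply_nonneg r _) hB0.le
      _ = B * C * q b + ε := by
          field_simp

private theorem fast {r : Seminorm ℂ A} {α : ℕ → A} (h : ∀ k, r (α (k + 1) - α k) ≤ (1 / 2) ^ k)
    (k m : ℕ) (hkm : k ≤ m) : r (α m - α k) ≤ 2 * (1 / 2) ^ k - 2 * (1 / 2) ^ m := by
  induction m, hkm using Nat.le_induction with
  | base => rw [sub_self, map_zero, sub_self]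
  | succ m hm ih =>
    have e : α (m + 1) - α k = (α (m + 1) - α m) + (α m - α k) := by ring
    rw [e]
    have h1 := map_add_le_add r (α (m + 1) - α m) (α m - α k)
    have h2 := h m
    have h3 : (2 : ℝ) * (1 / 2) ^ (m + 1) = (1 / 2) ^ m := by
      rw [pow_succ]; ring
    linarith

end

/-- Module UB. -/
theorem hUB (hGE : StGE) : StUB := by
  intro A _ _ _ _ _ h1 h2 p hp
  obtain ⟨π, hπ, hπq⟩ := cofinal (A := A)
  have claim : ∃ q : Seminorm ℂ A, Continuous q ∧ ∀ r : Seminorm ℂ A, Good r →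
      (∀ x, p x ≤ r x) → ∀ χ : A →ₐ[ℂ] ℂ, (∀ a, ‖χ a‖ ≤ p a) →
        ∃ (α : ℕ → A) (C : ℝ), QB q r C α ∧ ∀ k, ‖χ (α k) - 1‖ ≤ (1 / 2) ^ k := by
    by_contra hcon
    have h3 : ∀ i, ∃ (r : Seminorm ℂ A) (χ : A →ₐ[ℂ] ℂ), Good r ∧
        (∀ x, p x ≤ r x) ∧ (∀ a, ‖χ a‖ ≤ p a) ∧
        ¬ ∃ (α : ℕ → A) (C : ℝ), QB (π i) r C α ∧ ∀ k, ‖χ (α k) - 1‖ ≤ (1 / 2) ^ k := by
      intro i
      by_contra hi
      apply hcon
      refine ⟨π i, hπ i, fun r hr hpr χ hχ => ?_⟩
      by_contra hno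
      exact hi ⟨r, χ, hr, hpr, hχ, hno⟩
    choose r χ hr hpr hχ hno using h3
    obtain ⟨q, hq, H⟩ := h2 χ p hp.1 hχ
    obtain ⟨i, hi⟩ := hπq q hq
    obtain ⟨α, C, ⟨hα1, hα2⟩, hα⟩ := H (r i) (hr i) (hpr i) i
    refine hno i ⟨α, |C|, ⟨hα1, fun k b => ?_⟩, hα⟩
    have e1 := hα2 k b
    have e2 : C * q b ≤ |C| * π i b :=
      (mul_le_mul_of_nonneg_right (le_abs_self _) (apply_nonneg _ _)).trans
        (mul_le_mul_of_nonneg_left (hi b) (abs_nonneg _))
    linarith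
  obtain ⟨q, hq, H⟩ := claim
  refine ⟨q, hq, fun r hr => ?_⟩
  have hc : Continuous (r + p : Seminorm ℂ A) := by
    have : ⇑(r + p : Seminorm ℂ A) = fun x => r x + p x := rfl
    rw [this]
    exact hr.1.add hp.1
  obtain ⟨r', hr', hle⟩ := h1 (r + p) hc
  have hle' : ∀ x, r x + p x ≤ r' x := hle
  have hrr : ∀ x, r x ≤ r' x := fun x => by
    have := apply_nonneg p x
    linarith [hle' x]
  have hpr : ∀ x, p x ≤ r' x := fun x => by
    have := apply_nonneg r x
    linarith [hle' x]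
  by_cases hex : ∃ α ∈ Id q r' hr'.2, PL p r' hr'.2 hpr (1 - α) < 1 / 2
  · obtain ⟨α, ⟨C, hC⟩, hα⟩ := hex
    have h3 : ∀ᶠ k in atTop, p (1 - α.1 k) < 1 / 2 :=
      (PL_tendsto p r' hr'.2 hpr (1 - α)).eventually_lt_const hα
    obtain ⟨K, hK⟩ := eventually_atTop.1 h3
    have h4 : ∀ i : ℕ, ∃ N, ∀ k ≥ N, ∀ m ≥ N, r' (α.1 k - α.1 m) ≤ (1 / 2 : ℝ) ^ i :=
      fun i => α.2 _ (by positivity)
    choose N hN using h4
    have hφ : ∀ k m : ℕ, k ≤ m → N k ≤ K + ∑ i ∈ Finset.range (m + 1), N i := by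
      intro k m hkm
      have h5 : N k ≤ ∑ i ∈ Finset.range (m + 1), N i :=
        Finset.single_le_sum (f := N) (fun _ _ => Nat.zero_le _) (Finset.mem_range.2 (by omega))
      omega
    refine ⟨fun k => α.1 (K + ∑ i ∈ Finset.range (k + 1), N i), C, ⟨fun k => ?_, fun k b => ?_⟩,
      fun k => hK _ (by omega)⟩
    · exact (hrr _).trans (hN k _ (hφ k (k + 1) (by omega)) _ (hφ k k le_rfl))
    · refine le_of_forall_pos_le_add fun ε hε => ?_
      obtain ⟨j, hj1, hj2⟩ := ((hC b ε hε).and (eventually_ge_atTop (N k))).exists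
      have e : α.1 (K + ∑ i ∈ Finset.range (k + 1), N i) * b =
          α.1 j * b + (α.1 (K + ∑ i ∈ Finset.range (k + 1), N i) - α.1 j) * b := by ring
      show r (α.1 (K + ∑ i ∈ Finset.range (k + 1), N i) * b) ≤ _
      rw [e]
      have e1 := map_add_le_add r (α.1 j * b)
        ((α.1 (K + ∑ i ∈ Finset.range (k + 1), N i) - α.1 j) * b)
      have e2 := hr.2 (α.1 (K + ∑ i ∈ Finset.range (k + 1), N i) - α.1 j) b
      have e3 : r (α.1 (K + ∑ i ∈ Finset.range (k + 1), N i) - α.1 j) ≤ (1 / 2) ^ k :=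
        (hrr _).trans (hN k _ (hφ k k le_rfl) j hj2)
      have e4 := mul_le_mul_of_nonneg_right e3 (apply_nonneg r b)
      have e5 := hrr (α.1 j * b)
      linarith
  · exfalso
    push Not at hex
    obtain ⟨χ', hχ', hχI⟩ := hGE (CS r' hr'.2) (PL p r' hr'.2 hpr)
      (PL_mul p r' hr'.2 hpr hp.2) (Id q r' hr'.2) hex
    obtain ⟨α, C, ⟨hα1, hα2⟩, hα⟩ := H r' hr' hpr (χ'.comp (cst r' hr'.2)) (fun a => by
      have h3 := hχ' (cst r' hr'.2 a)
      have h4 : PL p r' hr'.2 hpr (cst r' hr'.2 a) = p a :=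
        tendsto_nhds_unique (PL_tendsto p r' hr'.2 hpr (cst r' hr'.2 a)) tendsto_const_nhds
      rw [h4] at h3
      exact h3)
    have hfast := fast hα1
    have hcau : Cau r' α := by
      intro ε hε
      have h5 : Tendsto (fun k : ℕ => 2 * ((1 : ℝ) / 2) ^ k) atTop (𝓝 (2 * 0)) :=
        (tendsto_pow_atTop_nhds_zero_of_lt_one (by norm_num) (by norm_num)).const_mul 2
      rw [mul_zero] at h5
      obtain ⟨N, hN⟩ := eventually_atTop.1 (h5.eventually_lt_const (half_pos hε))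
      have h6 : ∀ k ≥ N, r' (α k - α N) ≤ ε / 2 := by
        intro k hk
        have h7 := hfast N k hk
        have h8 := hN N le_rfl
        have h9 : (0 : ℝ) ≤ 2 * (1 / 2) ^ k := by positivity
        linarith
      refine ⟨N, fun k hk m hm => ?_⟩
      have e : α k - α m = (α k - α N) - (α m - α N) := by ring
      rw [e]
      have h7 := map_sub_le_add r' (α k - α N) (α m - α N)
      have h8 := h6 k hk
      have h9 := h6 m hm
      linarith
    have hmem : (⟨α, hcau⟩ : CS r' hr'.2) ∈ Id q r' hr'.2 := by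
      refine ⟨C, fun b ε hε => ?_⟩
      have h5 : Tendsto (fun k : ℕ => ((1 : ℝ) / 2) ^ k * r' b) atTop (𝓝 (0 * r' b)) :=
        (tendsto_pow_atTop_nhds_zero_of_lt_one (by norm_num) (by norm_num)).mul_const _
      rw [zero_mul] at h5
      filter_upwards [h5.eventually_lt_const hε] with k hk
      have h6 := hα2 k b
      show r' (α k * b) ≤ C * q b + ε
      linarith
    have hz := hχI _ hmem
    have h5 : ‖χ' ((⟨α, hcau⟩ : CS r' hr'.2) - cst r' hr'.2 (α 2))‖ ≤ 2 * (1 / 2) ^ 2 := by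
      refine (hχ' _).trans ?_
      refine le_of_tendsto (PL_tendsto p r' hr'.2 hpr _) ?_
      filter_upwards [eventually_ge_atTop 2] with m hm
      show p (α m - α 2) ≤ _
      have h6 := hfast 2 m hm
      have h7 := hpr (α m - α 2)
      have h8 : (0 : ℝ) ≤ 2 * (1 / 2) ^ m := by positivity
      linarith
    rw [map_sub, hz, zero_sub, norm_neg] at h5
    have h6 := hα 2
    have h7 : ‖(1 : ℂ)‖ ≤ ‖χ' (cst r' hr'.2 (α 2))‖ + ‖χ' (cst r' hr'.2 (α 2)) - 1‖ := by
      have h8 := norm_sub_le (χ' (cst r' hr'.2 (α 2))) (χ' (cst r' hr'.2 (α 2)) - 1)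
      rw [sub_sub_cancel] at h8
      exact h8
    have h8 : ‖χ' (cst r' hr'.2 (α 2)) - 1‖ ≤ (1 / 2) ^ 2 := h6
    rw [norm_one] at h7
    norm_num at h5 h7 h8
    linarith

end Pool.Agent.Helper70.SL
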